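import Pool.Agent.H629.TA.Stm

set_option autoImplicit false

/-! Task TA-MG (helper629, MP_751612_pr): marginals of `draw`. -/

open Finset

namespace Pool.Agent.H703.TA.MG

open Pool.Agent.H629.TA

theorem t_MG : S_MG := by
  intro m r s p e he hp φ
  classical
  unfold draw
  have hmap : ∀ j ∈ Fintype.piFinset (fun _ : Fin m => s),
      (fun i => j (e i)) ∈ Fintype.piFinset (fun _ : Fin r => s) := by
    intro j hj
    rw [Fintype.mem_piFinset] at hj ⊢
    intro i
    exact hj _
  rw [← Finset.sum_fiberwise_of_maps_to hmap]
  refine Finset.sum_congr rfl fun b hb => ?_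
  set t : Fin m → Finset ℕ := fun l =>
    if l ∈ Set.range e then {Function.extend e b (fun _ => 0) l} else s with ht
  have hfil : (Fintype.piFinset (fun _ : Fin m => s)).filter (fun j => (fun i => j (e i)) = b) =
      Fintype.piFinset t := by
    ext j
    rw [Finset.mem_filter, Fintype.mem_piFinset, Fintype.mem_piFinset]
    constructor
    · rintro ⟨h1, h2⟩ l
      by_cases hl : l ∈ Set.range e
      · obtain ⟨i, rfl⟩ := hl
        simp only [ht, Set.mem_range_self, if_true, he.extend_apply, Finset.mem_singleton]
        exact congrFun h2 i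
      · simp only [ht, if_neg hl]
        exact h1 l
    · intro h
      have h3 : ∀ i, j (e i) = b i := by
        intro i
        have h4 := h (e i)
        simpa only [ht, Set.mem_range_self, if_true, he.extend_apply, Finset.mem_singleton] using h4
      refine ⟨fun l => ?_, funext h3⟩
      by_cases hl : l ∈ Set.range e
      · obtain ⟨i, rfl⟩ := hl
        rw [h3]
        exact Fintype.mem_piFinset.1 hb i
      · have h4 := h l
        simpa only [ht, if_neg hl] using h4
  have h1 : ∀ j ∈ (Fintype.piFinset (fun _ : Fin m => s)).filter (fun j => (fun i => j (e i)) = b),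
      (∏ l, p (j l)) * φ (fun i => j (e i)) = (∏ l, p (j l)) * φ b := by
    intro j hj
    rw [(Finset.mem_filter.1 hj).2]
  rw [Finset.sum_congr rfl h1, ← Finset.sum_mul, hfil, ← Finset.prod_univ_sum t (fun _ a => p a)]
  congr 1
  calc ∏ l, ∑ a ∈ t l, p a = ∏ l ∈ univ.image e, ∑ a ∈ t l, p a := by
        symm
        apply Finset.prod_subset (Finset.subset_univ _)
        intro l _ hl
        have hl' : l ∉ Set.range e := by
          rintro ⟨i, rfl⟩
          exact hl (Finset.mem_image_of_mem _ (Finset.mem_univ i))
        simp only [ht, if_neg hl']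
        exact hp
    _ = ∏ i, ∑ a ∈ t (e i), p a := Finset.prod_image (fun i _ j _ h => he h)
    _ = ∏ i, p (b i) := by
        refine Finset.prod_congr rfl fun i _ => ?_
        simp only [ht, Set.mem_range_self, if_true, he.extend_apply, Finset.sum_singleton]

end Pool.Agent.H703.TA.MG
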